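import Pool.Agent.D0H86.PW.Stm4

/-!
Module DG: the diagonal.
-/

set_option autoImplicit false

namespace Pool.Agent.D0H9.PW

open Filter Topology
open Pool.Agent.D0H86.PW

theorem dg_core (Φ : ℕ → ℕ → Prop) (h : ∀ j, ∀ᶠ n in atTop, Φ j n) :
    ∃ J : ℕ → ℕ, Monotone J ∧ Tendsto J atTop atTop ∧ ∀ᶠ n in atTop, Φ (J n) n := by
  classical
  have h' : ∀ j, ∃ N, ∀ n, N ≤ n → Φ j n := fun j => eventually_atTop.1 (h j)
  choose N hN using h'
  -- monotone thresholds
  let t : ℕ → ℕ := fun j => j + ∑ i ∈ Finset.range (j + 1), N i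
  have ht : ∀ j, N j ≤ t j := by
    intro j
    have : N j ≤ ∑ i ∈ Finset.range (j + 1), N i :=
      Finset.single_le_sum (f := N) (fun _ _ => Nat.zero_le _) (Finset.mem_range.2 (Nat.lt_succ_self j))
    change N j ≤ j + _
    omega
  have htj : ∀ j, j ≤ t j := fun j => Nat.le_add_right _ _
  let J : ℕ → ℕ := fun n => Nat.findGreatest (fun j => t j ≤ n) n
  have hJmono : Monotone J := by
    intro a b hab
    exact (Nat.findGreatest_mono_left (fun j (hj : t j ≤ a) => hj.trans hab) a).trans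
      (Nat.findGreatest_mono_right _ hab)
  have hge : ∀ j n, t j ≤ n → j ≤ J n := by
    intro j n hj
    exact Nat.le_findGreatest ((htj j).trans hj) hj
  refine ⟨J, hJmono, ?_, ?_⟩
  · exact tendsto_atTop.2 fun j => (eventually_ge_atTop (t j)).mono fun n hn => hge j n hn
  · filter_upwards [eventually_ge_atTop (t 0)] with n hn
    have h1 : t (J n) ≤ n :=
      Nat.findGreatest_spec (P := fun j => t j ≤ n) (Nat.zero_le n) hn
    exact hN (J n) n ((ht (J n)).trans h1)

/-- Module DG. -/
theorem t_DG : S_DG := dg_core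

end Pool.Agent.D0H9.PW
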